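import Mathlib
import Pool.Agent.Helper304.LapKato

set_option autoImplicit false

namespace Pool.Agent.Results.MP_97dcc2_an.SupersolutionClosed

open MeasureTheory Filter Topology
open scoped ContDiff

/-- `φ` is a test function on `Ω`: smooth with compact support contained in `Ω`. -/
structure IsTest {N : ℕ} (Ω : Set (EuclideanSpace ℝ (Fin N)))
    (φ : EuclideanSpace ℝ (Fin N) → ℝ) : Prop where
  smooth : ContDiff ℝ ∞ φ
  compactSupport : HasCompactSupport φ
  support_subset : tsupport φ ⊆ Ω

/-- `-Δv + g(v) ≥ 0` in the sense of distributions on `Ω`: `v ∈ L¹(Ω)`, `g(v) ∈ L¹(Ω)` and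
`∫_Ω v (-Δφ) + ∫_Ω g(v) φ ≥ 0` for every nonnegative test function `φ`. -/
structure IsSupersolution {N : ℕ} (Ω : Set (EuclideanSpace ℝ (Fin N))) (g : ℝ → ℝ)
    (v : EuclideanSpace ℝ (Fin N) → ℝ) : Prop where
  integrable : IntegrableOn v Ω
  integrable_comp : IntegrableOn (fun x => g (v x)) Ω
  ineq : ∀ φ, IsTest Ω φ → (∀ x, 0 ≤ φ x) →
    0 ≤ (∫ x in Ω, v x * (-Laplacian.laplacian φ x)) + ∫ x in Ω, g (v x) * φ x

open Helper304Lap

variable {N : ℕ}

/-- integrals over `Ω` of functions supported in `Ω` are integrals over the whole space -/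
lemma set_int {Ω : Set (E N)} {F : E N → ℝ} (h : ∀ x, x ∉ Ω → F x = 0) :
    ∫ x in Ω, F x = ∫ x, F x :=
  setIntegral_eq_integral_of_forall_compl_eq_zero h

/-- mollification of a distributional inequality `Δu ≤ f` -/
lemma lap_ml_le {Ω : Set (E N)} {u f : E N → ℝ} (hu : Integrable u)
    (h : ∀ φ, Tst φ → tsupport φ ⊆ Ω → (∀ x, 0 ≤ φ x) →
      ∫ x, u x * lap φ x ≤ ∫ x, f x * φ x) (n : ℕ) (x : E N)
    (hx : Metric.closedBall x (1 / ((n : ℝ) + 1)) ⊆ Ω) : lap (ml n u) x ≤ ml n f x := by
  have hs : tsupport (fun t => mol n (x - t)) ⊆ Ω := by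
    refine subset_trans (closure_minimal ?_ Metric.isClosed_closedBall) hx
    intro t ht
    have h1 : x - t ∈ Function.support (mol (N := N) n) := ht
    unfold mol at h1
    rw [ContDiffBump.support_normed_eq] at h1
    rw [Metric.mem_closedBall, dist_comm, dist_eq_norm]
    rw [mem_ball_zero_iff] at h1
    exact h1.le
  have h1 := h (fun t => mol n (x - t)) (tst_reflect (mol_tst n) x) hs
    (fun t => mol_nonneg n _)
  simp only [lap_reflect (mol_tst n).1] at h1
  have h2 : lap (ml n u) x = ∫ t, lap (mol n) (x - t) * u t := by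
    unfold lap
    simp only [ml_pd2 n hu.locallyIntegrable, convolution_lsmul_swap, smul_eq_mul,
      Finset.sum_mul]
    rw [integral_finsetSum]
    intro i _
    have := ((((mol_tst (N := N) n).pd i).pd i).2.convolutionExists_left
      (ContinuousLinearMap.lsmul ℝ ℝ)
      (((mol_tst (N := N) n).pd i).pd i).cont hu.locallyIntegrable x).integrable_swap
    simpa using this
  rw [h2, ml_eq]
  have e1 : ∫ t, lap (mol n) (x - t) * u t = ∫ t, u t * lap (mol n) (x - t) := by
    congr 1; ext t; ring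
  have e2 : ∫ t, mol n (x - t) * f t = ∫ t, f t * mol n (x - t) := by
    congr 1; ext t; ring
  rw [e1, e2]
  exact h1

/-- Kato's inequality for a concave nondecreasing truncation of a supersolution. -/
lemma kato_super {Ω : Set (E N)} (hΩ : IsOpen Ω) {u f : E N → ℝ} (hu : Integrable u)
    (hf : Integrable f)
    (h : ∀ φ, Tst φ → tsupport φ ⊆ Ω → (∀ x, 0 ≤ φ x) →
      ∫ x, u x * lap φ x ≤ ∫ x, f x * φ x)
    {θ : ℝ → ℝ} (hθ : ContDiff ℝ ∞ θ) (hanti : Antitone θ) (hθ0 : ∀ s, 0 ≤ θ s)
    (hθ1 : ∀ s, θ s ≤ 1) {φ : E N → ℝ} (hφ : Tst φ) (hs : tsupport φ ⊆ Ω)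
    (hφ0 : ∀ x, 0 ≤ φ x) :
    ∫ x, prim θ (u x) * lap φ x ≤ ∫ x, θ (u x) * f x * φ x := by
  have hM : ∀ s, |θ s| ≤ 1 := fun s => by rw [abs_of_nonneg (hθ0 s)]; exact hθ1 s
  obtain ⟨C, hC0, hC⟩ := hφ.bdd
  obtain ⟨δ, hδ, hδΩ⟩ := hφ.2.isCompact.exists_cthickening_subset_open hΩ hs
  have hlarge : ∀ᶠ n : ℕ in atTop, 1 / ((n : ℝ) + 1) < δ :=
    (tendsto_one_div_add_atTop_nhds_zero_nat (𝕜 := ℝ)).eventually (gt_mem_nhds hδ)
  have h1 : ∀ᶠ n in atTop, ∫ x, prim θ (ml n u x) * lap φ x ≤
      ∫ x, (θ (ml n u x) * φ x) * ml n f x := by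
    filter_upwards [hlarge] with n hn
    have hsm := ml_contDiff n hu.locallyIntegrable
    rw [smooth_second hφ hsm hθ]
    have hfc := ml_contDiff n hf.locallyIntegrable
    apply integral_mono
    · apply Tst.integrable
      apply hφ.smooth_mul
      apply ContDiff.add
      · exact (hθ.comp hsm).mul (contDiff_lap hsm)
      · apply ContDiff.mul
        · have hd : ContDiff ℝ ∞ (deriv θ) := by
            rw [contDiff_infty_iff_deriv] at hθ; exact hθ.2
          exact hd.comp hsm
        · exact ContDiff.sum fun i _ => (contDiff_pd hsm i).mul (contDiff_pd hsm i)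
    · have : Tst (fun x => (θ (ml n u x) * ml n f x) * φ x) :=
        hφ.smooth_mul ((hθ.comp hsm).mul hfc)
      refine this.integrable.congr (Eventually.of_forall fun x => ?_)
      simp only; ring
    · intro x
      simp only
      by_cases hx : x ∈ tsupport φ
      · have hball : Metric.closedBall x (1 / ((n : ℝ) + 1)) ⊆ Ω := by
          intro y hy
          apply hδΩ
          apply Metric.mem_cthickening_of_dist_le y x δ _ hx
          exact (Metric.mem_closedBall.1 hy).trans hn.le
        have h3 := lap_ml_le hu h n x hball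
        have h2 : deriv θ (ml n u x) * ∑ i, pd i (ml n u) x * pd i (ml n u) x ≤ 0 :=
          mul_nonpos_of_nonpos_of_nonneg hanti.deriv_nonpos
            (Finset.sum_nonneg fun i _ => mul_self_nonneg _)
        have h4 : θ (ml n u x) * lap (ml n u) x ≤ θ (ml n u x) * ml n f x :=
          mul_le_mul_of_nonneg_left h3 (hθ0 _)
        nlinarith [mul_le_mul_of_nonneg_right (add_le_add h4 h2) (hφ0 x)]
      · simp [image_eq_zero_of_notMem_tsupport hx]
  have h3 := prim_sub_tendsto hu hφ.lap hθ.continuous.measurable hM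
  have h4 : Tendsto (fun n => ∫ x, (θ (ml n u x) * φ x) * ml n f x) atTop
      (𝓝 (∫ x, (θ (u x) * φ x) * f x)) := by
    apply tendsto_mul_L1 (M := 1 * C)
    · intro n
      exact ((hθ.continuous.comp (ml_contDiff n hu.locallyIntegrable).continuous).mul
        hφ.cont).aestronglyMeasurable
    · intro n
      refine Eventually.of_forall fun x => ?_
      rw [abs_mul]
      exact mul_le_mul (hM _) (hC _) (abs_nonneg _) zero_le_one
    · filter_upwards [ml_ae u hu.locallyIntegrable] with x hx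
      exact ((hθ.continuous.tendsto _).comp hx).mul_const _
    · exact fun n => ml_integrable n hf
    · exact hf
    · exact ml_L1 hf
  have h5 := le_of_tendsto_of_tendsto h3 h4 h1
  refine h5.trans (le_of_eq ?_)
  refine integral_congr_ae (Eventually.of_forall fun x => ?_)
  simp only; ring

/-- the smooth cut-off `θ_k`: `1` on `(-∞, k]`, `0` on `[k+1, ∞)` -/
noncomputable def th (k : ℕ) (t : ℝ) : ℝ := Real.smoothTransition ((k : ℝ) + 1 - t)

lemma th_contDiff (k : ℕ) : ContDiff ℝ ∞ (th k) :=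
  Real.smoothTransition.contDiff.comp (contDiff_const.sub contDiff_id)

lemma th_anti (k : ℕ) : Antitone (th k) := fun a b hab =>
  Real.smoothTransition.monotone (by linarith)

lemma th_nonneg (k : ℕ) (s : ℝ) : 0 ≤ th k s := Real.smoothTransition.nonneg _

lemma th_le_one (k : ℕ) (s : ℝ) : th k s ≤ 1 := Real.smoothTransition.le_one _

lemma th_abs (k : ℕ) (s : ℝ) : |th k s| ≤ 1 := by
  rw [abs_of_nonneg (th_nonneg k s)]; exact th_le_one k s

lemma th_one {k : ℕ} {s : ℝ} (h : s ≤ k) : th k s = 1 :=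
  Real.smoothTransition.one_of_one_le (by linarith)

lemma th_zero {k : ℕ} {s : ℝ} (h : (k : ℝ) + 1 ≤ s) : th k s = 0 :=
  Real.smoothTransition.zero_of_nonpos (by linarith)

lemma th_tendsto (s : ℝ) : Tendsto (fun k => th k s) atTop (𝓝 1) := by
  apply tendsto_const_nhds.congr'
  filter_upwards [eventually_ge_atTop ⌈s⌉₊] with k hk
  exact (th_one ((Nat.le_ceil s).trans (by exact_mod_cast hk))).symm

/-- `θ_k g` is bounded above. -/
lemma th_mul_bdd {g : ℝ → ℝ} (hg : Continuous g) (hsign : ∀ t, 0 ≤ g t * t) (k : ℕ) :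
    ∃ C, 0 ≤ C ∧ ∀ t, th k t * g t ≤ C := by
  obtain ⟨C, hC⟩ := (isCompact_Icc (a := (0 : ℝ)) (b := (k : ℝ) + 1)).exists_bound_of_continuousOn
    hg.continuousOn
  have hC0 : 0 ≤ C := (norm_nonneg _).trans (hC 0 ⟨le_rfl, by positivity⟩)
  refine ⟨C, hC0, fun t => ?_⟩
  rcases lt_or_ge t 0 with h | h
  · have : g t ≤ 0 := by
      by_contra h'
      push Not at h'
      have := hsign t
      nlinarith
    exact (mul_nonpos_of_nonneg_of_nonpos (th_nonneg k t) this).trans hC0
  · rcases le_or_gt t ((k : ℝ) + 1) with h' | h'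
    · have h2 := hC t ⟨h, h'⟩
      rw [Real.norm_eq_abs] at h2
      calc th k t * g t ≤ |th k t * g t| := le_abs_self _
        _ = |th k t| * |g t| := abs_mul _ _
        _ ≤ 1 * C := mul_le_mul (th_abs k t) h2 (abs_nonneg _) zero_le_one
        _ = C := one_mul C
    · rw [th_zero h'.le, zero_mul]; exact hC0

/-- one-sided Fatou lemma -/
lemma limit_le {α : Type*} [MeasurableSpace α] {μ : Measure α} {h : ℕ → α → ℝ} {h' b : α → ℝ}
    (hh : ∀ n, Integrable (h n) μ) (hh' : Integrable h' μ) (hb : Integrable b μ)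
    (hb0 : ∀ x, 0 ≤ b x) (hle : ∀ n x, h n x ≤ b x)
    (hae : ∀ᵐ x ∂μ, Tendsto (fun n => h n x) atTop (𝓝 (h' x))) {a : ℕ → ℝ} {a' : ℝ}
    (ha : Tendsto a atTop (𝓝 a')) (hah : ∀ n, a n ≤ ∫ x, h n x ∂μ) : a' ≤ ∫ x, h' x ∂μ := by
  have h1 : Tendsto (fun n => ∫ x, max (h n x) (h' x) ∂μ) atTop (𝓝 (∫ x, h' x ∂μ)) := by
    apply tendsto_integral_of_dominated_convergence (fun x => b x + |h' x|)
    · intro n; exact ((hh n).sup hh').aestronglyMeasurable
    · exact hb.add hh'.abs
    · intro n
      refine Eventually.of_forall fun x => ?_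
      rw [Real.norm_eq_abs, abs_le]
      constructor
      · have := le_max_right (h n x) (h' x)
        linarith [neg_abs_le (h' x), hb0 x]
      · apply max_le
        · linarith [hle n x, abs_nonneg (h' x)]
        · linarith [le_abs_self (h' x), hb0 x]
    · filter_upwards [hae] with x hx
      simpa using hx.max (tendsto_const_nhds (x := h' x))
  apply le_of_tendsto_of_tendsto' ha h1
  intro n
  refine (hah n).trans (integral_mono (hh n) ((hh n).sup hh') fun x => le_max_left _ _)

/-- Fatou: the limit of an `L¹`-bounded sequence of functions `g(u_n)` is integrable. -/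
lemma comp_integrable {α : Type*} [MeasurableSpace α] {μ : Measure α} {g : ℝ → ℝ}
    (hg : Continuous g) {u : ℕ → α → ℝ} {v : α → ℝ} (hv : AEStronglyMeasurable v μ)
    (hgu : ∀ n, Integrable (fun x => g (u n x)) μ) {C : ℝ}
    (hC : ∀ n, ∫ x, |g (u n x)| ∂μ ≤ C)
    (hae : ∀ᵐ x ∂μ, Tendsto (fun n => u n x) atTop (𝓝 (v x))) :
    Integrable (fun x => g (v x)) μ := by
  refine ⟨hg.comp_aestronglyMeasurable hv, ?_⟩
  have h1 : ∫⁻ x, ‖g (v x)‖ₑ ∂μ ≤ ∫⁻ x, liminf (fun n => ‖g (u n x)‖ₑ) atTop ∂μ := by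
    apply lintegral_mono_ae
    filter_upwards [hae] with x hx
    have : Tendsto (fun n => ‖g (u n x)‖ₑ) atTop (𝓝 ‖g (v x)‖ₑ) :=
      ((hg.tendsto _).comp hx).enorm
    exact this.liminf_eq.symm.le
  have h2 : ∫⁻ x, liminf (fun n => ‖g (u n x)‖ₑ) atTop ∂μ ≤
      liminf (fun n => ∫⁻ x, ‖g (u n x)‖ₑ ∂μ) atTop :=
    lintegral_liminf_le' fun n => (hgu n).aestronglyMeasurable.enorm
  have h3 : liminf (fun n => ∫⁻ x, ‖g (u n x)‖ₑ ∂μ) atTop ≤ ENNReal.ofReal C := by
    apply liminf_le_of_frequently_le'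
    apply Eventually.frequently
    refine Eventually.of_forall fun n => ?_
    have := ofReal_integral_norm_eq_lintegral_enorm (hgu n)
    rw [← this]
    exact ENNReal.ofReal_le_ofReal (hC n)
  exact ((h1.trans h2).trans h3).trans_lt ENNReal.ofReal_lt_top

/-- an `L¹`-convergent sequence has an a.e. convergent subsequence -/
lemma exists_subseq {α : Type*} [MeasurableSpace α] {μ : Measure α}
    {u : ℕ → α → ℝ} {v : α → ℝ} (hu : ∀ n, Integrable (u n) μ) (hv : Integrable v μ)
    (hlim : Tendsto (fun n => ∫ x, |u n x - v x| ∂μ) atTop (𝓝 0)) :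
    ∃ ns : ℕ → ℕ, StrictMono ns ∧
      ∀ᵐ x ∂μ, Tendsto (fun n => u (ns n) x) atTop (𝓝 (v x)) := by
  apply TendstoInMeasure.exists_seq_tendsto_ae
  apply tendstoInMeasure_of_tendsto_eLpNorm (p := 1) one_ne_zero
    (fun n => (hu n).aestronglyMeasurable) hv.aestronglyMeasurable
  have h1 : ∀ n, eLpNorm (u n - v) 1 μ = ENNReal.ofReal (∫ x, |u n x - v x| ∂μ) := by
    intro n
    rw [eLpNorm_one_eq_lintegral_enorm, ← ofReal_integral_norm_eq_lintegral_enorm ((hu n).sub hv)]
    rfl
  simp only [h1]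
  simpa using ENNReal.tendsto_ofReal hlim

/-- **Closedness of supersolutions under `L¹` convergence.**  Let `Ω ⊆ ℝ^N` be open, let `g` be
continuous with `g(t) t ≥ 0` for every `t`, and let `u_n ∈ L¹(Ω)` satisfy `-Δu_n + g(u_n) ≥ 0` in
the sense of distributions on `Ω`, with `g(u_n)` bounded in `L¹(Ω)`.  If `u_n → u` in `L¹(Ω)`
then `-Δu + g(u) ≥ 0` in the sense of distributions on `Ω`. -/
theorem result {N : ℕ} {Ω : Set (EuclideanSpace ℝ (Fin N))} (hΩ : IsOpen Ω)
    {g : ℝ → ℝ} (hg : Continuous g) (hsign : ∀ t, 0 ≤ g t * t)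
    {u : ℕ → EuclideanSpace ℝ (Fin N) → ℝ} {v : EuclideanSpace ℝ (Fin N) → ℝ}
    (hu : ∀ n, IsSupersolution Ω g (u n))
    (hbdd : ∃ C : ℝ, ∀ n, ∫ x in Ω, |g (u n x)| ≤ C)
    (hv : IntegrableOn v Ω)
    (hlim : Tendsto (fun n => ∫ x in Ω, |u n x - v x|) atTop (𝓝 0)) :
    IsSupersolution Ω g v := by
  obtain ⟨C, hC⟩ := hbdd
  obtain ⟨ns, hns, hae⟩ := exists_subseq (fun n => (hu n).integrable) hv hlim
  have hgv : IntegrableOn (fun x => g (v x)) Ω :=
    comp_integrable hg hv.aestronglyMeasurable (fun n => (hu (ns n)).integrable_comp)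
      (fun n => hC (ns n)) hae
  refine ⟨hv, hgv, fun φ hφ hφ0 => ?_⟩
  have hT : Tst φ := ⟨hφ.1, hφ.2⟩
  have hs := hφ.3
  have hlap0 : ∀ φ : E N → ℝ, tsupport φ ⊆ Ω → ∀ x, x ∉ Ω → lap φ x = 0 := by
    intro φ hs x hx
    exact image_eq_zero_of_notMem_tsupport fun h => hx (hs (tsupport_lap h))
  have hφ00 : ∀ φ : E N → ℝ, tsupport φ ⊆ Ω → ∀ x, x ∉ Ω → φ x = 0 := by
    intro φ hs x hx
    exact image_eq_zero_of_notMem_tsupport fun h => hx (hs h)
  have hΩm := hΩ.measurableSet
  -- the extensions by zero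
  obtain ⟨U, hU⟩ : ∃ U : ℕ → E N → ℝ, U = fun n => Ω.indicator (u (ns n)) := ⟨_, rfl⟩
  obtain ⟨F, hF⟩ : ∃ F : ℕ → E N → ℝ, F = fun n => Ω.indicator (fun x => g (u (ns n) x)) :=
    ⟨_, rfl⟩
  obtain ⟨V, hV⟩ : ∃ V : E N → ℝ, V = Ω.indicator v := ⟨_, rfl⟩
  obtain ⟨G, hG⟩ : ∃ G : E N → ℝ, G = Ω.indicator (fun x => g (v x)) := ⟨_, rfl⟩
  have hUi : ∀ n, Integrable (U n) := fun n => by
    rw [hU]; exact (integrable_indicator_iff hΩm).2 (hu (ns n)).integrable
  have hFi : ∀ n, Integrable (F n) := fun n => by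
    rw [hF]; exact (integrable_indicator_iff hΩm).2 (hu (ns n)).integrable_comp
  have hVi : Integrable V := by rw [hV]; exact (integrable_indicator_iff hΩm).2 hv
  have hGi : Integrable G := by rw [hG]; exact (integrable_indicator_iff hΩm).2 hgv
  have hUx : ∀ n x, x ∈ Ω → U n x = u (ns n) x := fun n x hx => by
    rw [hU]; exact Set.indicator_of_mem hx _
  have hFx : ∀ n x, x ∈ Ω → F n x = g (u (ns n) x) := fun n x hx => by
    rw [hF]; exact Set.indicator_of_mem hx _
  have hVx : ∀ x, x ∈ Ω → V x = v x := fun x hx => by rw [hV]; exact Set.indicator_of_mem hx _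
  have hGx : ∀ x, x ∈ Ω → G x = g (v x) := fun x hx => by
    rw [hG]; exact Set.indicator_of_mem hx _
  -- the equations
  have heq : ∀ n, ∀ φ, Tst φ → tsupport φ ⊆ Ω → (∀ x, 0 ≤ φ x) →
      ∫ x, U n x * lap φ x ≤ ∫ x, F n x * φ x := by
    intro n φ hφ hs hφ0
    have h1 := (hu (ns n)).ineq φ ⟨hφ.1, hφ.2, hs⟩ hφ0
    have e1 : ∫ x in Ω, u (ns n) x * (-Laplacian.laplacian φ x) =
        -∫ x, U n x * lap φ x := by
      rw [← set_int (Ω := Ω) (F := fun x => U n x * lap φ x)
        (fun x hx => by simp [hlap0 φ hs x hx]), ← integral_neg]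
      apply setIntegral_congr_fun hΩm
      intro x hx
      simp only
      rw [lap_eq hφ.1, hUx n x hx]
      ring
    have e2 : ∫ x in Ω, g (u (ns n) x) * φ x = ∫ x, F n x * φ x := by
      rw [← set_int (Ω := Ω) (F := fun x => F n x * φ x)
        (fun x hx => by simp [hφ00 φ hs x hx])]
      apply setIntegral_congr_fun hΩm
      intro x hx
      simp only
      rw [hFx n x hx]
    rw [e1, e2] at h1
    linarith
  -- truncated inequalities
  have hk : ∀ k n, ∫ x, prim (th k) (U n x) * lap φ x ≤ ∫ x, th k (U n x) * F n x * φ x :=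
    fun k n => kato_super hΩ (hUi n) (hFi n) (heq n) (th_contDiff k) (th_anti k) (th_nonneg k)
      (th_le_one k) hT hs hφ0
  obtain ⟨D, hD0, hD⟩ := hT.bdd
  have hthi : ∀ k {w H : E N → ℝ}, Integrable w → Integrable H →
      Integrable (fun x => th k (w x) * H x * φ x) := by
    intro k w H hw hH
    have h1 : Integrable (fun x => φ x * H x) :=
      hH.bdd_mul (c := D) hT.cont.aestronglyMeasurable (Eventually.of_forall fun x => hD x)
    have h2 : Integrable (fun x => th k (w x) * (φ x * H x)) :=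
      h1.bdd_mul (c := 1) ((th_contDiff k).continuous.comp_aestronglyMeasurable
        hw.aestronglyMeasurable) (Eventually.of_forall fun x => th_abs k _)
    refine h2.congr (Eventually.of_forall fun x => ?_)
    simp only; ring
  have haeU : ∀ᵐ x, Tendsto (fun n => U n x) atTop (𝓝 (V x)) := by
    rw [ae_restrict_iff' hΩm] at hae
    filter_upwards [hae] with x hx
    by_cases hxΩ : x ∈ Ω
    · rw [hVx x hxΩ]
      exact (hx hxΩ).congr fun n => (hUx n x hxΩ).symm
    · rw [hU, hV]
      simp [hxΩ]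
  have haeF : ∀ᵐ x, Tendsto (fun n => F n x) atTop (𝓝 (G x)) := by
    rw [ae_restrict_iff' hΩm] at hae
    filter_upwards [hae] with x hx
    by_cases hxΩ : x ∈ Ω
    · rw [hGx x hxΩ]
      exact ((hg.tendsto _).comp (hx hxΩ)).congr fun n => (hFx n x hxΩ).symm
    · rw [hF, hG]
      simp [hxΩ]
  have hL1 : Tendsto (fun n => ∫ x, |U n x - V x|) atTop (𝓝 0) := by
    have h1 := hlim.comp hns.tendsto_atTop
    refine h1.congr fun n => ?_
    simp only [Function.comp_def]
    rw [← set_int (Ω := Ω) (F := fun x => |U n x - V x|)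
      (fun x hx => by simp [hU, hV, hx])]
    apply setIntegral_congr_fun hΩm
    intro x hx
    simp only
    rw [hUx n x hx, hVx x hx]
  -- the limit `n → ∞`
  have hn : ∀ k, ∫ x, prim (th k) (V x) * lap φ x ≤ ∫ x, th k (V x) * G x * φ x := by
    intro k
    obtain ⟨B, hB0, hB⟩ := th_mul_bdd hg hsign k
    have hmeas := (th_contDiff k).continuous.measurable
    obtain ⟨L, hL0, hL⟩ := hT.lap.bdd
    have ha : Tendsto (fun n => ∫ x, prim (th k) (U n x) * lap φ x) atTop
        (𝓝 (∫ x, prim (th k) (V x) * lap φ x)) := by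
      have := tendsto_mul_L1 (μ := (volume : Measure (E N))) (a := fun _ => lap φ)
        (a' := lap φ) (w := fun n x => prim (th k) (U n x))
        (w' := fun x => prim (th k) (V x)) (M := L)
        (fun n => hT.lap.cont.aestronglyMeasurable)
        (fun n => Eventually.of_forall hL) (Eventually.of_forall fun x => tendsto_const_nhds)
        (fun n => prim_comp_integrable (hUi n) hmeas (th_abs k))
        (prim_comp_integrable hVi hmeas (th_abs k)) ?_
      · simpa only [mul_comm] using this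
      · apply squeeze_zero (g := fun n => 1 * ∫ x, |U n x - V x|)
          (fun n => integral_nonneg fun x => abs_nonneg _)
        · intro n
          rw [← integral_const_mul]
          apply integral_mono_of_nonneg (Eventually.of_forall fun x => abs_nonneg _)
            (((hUi n).sub hVi).abs.const_mul _)
          exact Eventually.of_forall fun x => prim_lip hmeas (th_abs k) _ _
        · simpa using hL1
    apply limit_le (b := fun x => B * φ x) (fun n => hthi k (hUi n) (hFi n)) (hthi k hVi hGi)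
      (hT.integrable.const_mul B) (fun x => mul_nonneg hB0 (hφ0 x)) _ _ ha (hk k)
    · intro n x
      by_cases hx : x ∈ Ω
      · rw [hUx n x hx, hFx n x hx]
        exact mul_le_mul_of_nonneg_right (hB _) (hφ0 x)
      · simp [hφ00 φ hs x hx]
    · filter_upwards [haeU, haeF] with x h1 h2
      exact ((((th_contDiff k).continuous.tendsto _).comp h1).mul h2).mul_const _
  -- the limit `k → ∞`
  have hfin : ∫ x, V x * lap φ x ≤ ∫ x, G x * φ x := by
    have t1 : Tendsto (fun k => ∫ x, prim (th k) (V x) * lap φ x) atTop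
        (𝓝 (∫ x, V x * lap φ x)) := by
      obtain ⟨L, hL0, hL⟩ := hT.lap.bdd
      have hi : Integrable (fun x => lap φ x * V x) :=
        hVi.bdd_mul (c := L) hT.lap.cont.aestronglyMeasurable (Eventually.of_forall fun x => hL x)
      apply tendsto_integral_of_dominated_convergence (fun x => |lap φ x * V x|)
      · intro k
        exact ((prim_comp_integrable hVi (th_contDiff k).continuous.measurable
          (th_abs k)).aestronglyMeasurable).mul hT.lap.cont.aestronglyMeasurable
      · exact hi.abs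
      · intro k
        refine Eventually.of_forall fun x => ?_
        rw [Real.norm_eq_abs, abs_mul, abs_mul, mul_comm]
        refine mul_le_mul_of_nonneg_left ?_ (abs_nonneg _)
        simpa using prim_bd (th_contDiff k).continuous.measurable (th_abs k) (V x)
      · refine Eventually.of_forall fun x => ?_
        have h1 : Tendsto (fun k => prim (th k) (V x)) atTop (𝓝 (prim (fun _ => 1) (V x))) :=
          prim_tendsto (fun k => (th_contDiff k).continuous.measurable) th_abs
            (Eventually.of_forall th_tendsto) (V x)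
        have h2 : prim (fun _ => (1 : ℝ)) (V x) = V x := by simp [prim]
        rw [h2] at h1
        exact h1.mul_const _
    have t2 : Tendsto (fun k => ∫ x, th k (V x) * G x * φ x) atTop
        (𝓝 (∫ x, G x * φ x)) := by
      have hi : Integrable (fun x => φ x * G x) :=
        hGi.bdd_mul (c := D) hT.cont.aestronglyMeasurable (Eventually.of_forall fun x => hD x)
      apply tendsto_integral_of_dominated_convergence (fun x => |φ x * G x|)
      · intro k
        exact (hthi k hVi hGi).aestronglyMeasurable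
      · exact hi.abs
      · intro k
        refine Eventually.of_forall fun x => ?_
        rw [Real.norm_eq_abs, mul_assoc, abs_mul, mul_comm (G x)]
        calc |th k (V x)| * |φ x * G x| ≤ 1 * |φ x * G x| :=
              mul_le_mul_of_nonneg_right (th_abs k _) (abs_nonneg _)
          _ = _ := one_mul _
      · refine Eventually.of_forall fun x => ?_
        have := ((th_tendsto (V x)).mul_const (G x)).mul_const (φ x)
        simpa using this
    exact le_of_tendsto_of_tendsto' t1 t2 hn
  have e1 : ∫ x in Ω, v x * (-Laplacian.laplacian φ x) = -∫ x, V x * lap φ x := by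
    rw [← set_int (Ω := Ω) (F := fun x => V x * lap φ x)
      (fun x hx => by simp [hlap0 φ hs x hx]), ← integral_neg]
    apply setIntegral_congr_fun hΩm
    intro x hx
    simp only
    rw [lap_eq hφ.1, hVx x hx]
    ring
  have e2 : ∫ x in Ω, g (v x) * φ x = ∫ x, G x * φ x := by
    rw [← set_int (Ω := Ω) (F := fun x => G x * φ x)
      (fun x hx => by simp [hφ00 φ hs x hx])]
    apply setIntegral_congr_fun hΩm
    intro x hx
    simp only
    rw [hGx x hx]
  rw [e1, e2]
  linarith

end Pool.Agent.Results.MP_97dcc2_an.SupersolutionClosed
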